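import Pool.Agent.Helper22.LIL.UA

/-! Block LIL-UB (helper12): mean square over intervals of radii, from `approx_unif`. -/

open MeasureTheory Filter Set
open scoped Real Topology

namespace Pool.Agent.Helper22.LIL

open Pool.Agent.Helper22.GC Pool.Agent.Helper53.OM

noncomputable section

/-- the square of the error is interval integrable (auxiliary for UB, UC) -/
lemma UB_intervalIntegrable (hPm : Measurable Pe) (hTK : ∀ K, Continuous (TK K))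
    (hPe : ∀ {R : ℝ}, 1 ≤ R → |Pe R| ≤ 20 * R ^ 2) (K : ℕ) {c d : ℝ} (hc : 1 ≤ c)
    (hcd : c ≤ d) :
    IntervalIntegrable (fun x => (Pe x / √x - TK K x) ^ 2) volume c d := by
  have hg : IntervalIntegrable (fun x => (20 * x ^ 2 + |TK K x|) ^ 2) volume c d := by
    apply Continuous.intervalIntegrable
    have := hTK K
    fun_prop
  refine hg.mono_fun' ?_ ?_
  · apply Measurable.aestronglyMeasurable
    have h1 := hPm
    have h2 := (hTK K).measurable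
    exact ((h1.div Real.continuous_sqrt.measurable).sub h2).pow_const 2
  · rw [uIoc_of_le hcd]
    refine (ae_restrict_iff' measurableSet_Ioc).mpr (Filter.Eventually.of_forall ?_)
    intro x hx
    have hx1 : 1 ≤ x := hc.trans hx.1.le
    have hs : 1 ≤ √x := by rw [Real.one_le_sqrt]; exact hx1
    have h1 : |Pe x / √x| ≤ 20 * x ^ 2 := by
      rw [abs_div, abs_of_pos (lt_of_lt_of_le one_pos hs)]
      exact (div_le_self (abs_nonneg _) hs).trans (hPe hx1)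
    have h2 : |Pe x / √x - TK K x| ≤ 20 * x ^ 2 + |TK K x| :=
      (abs_sub _ _).trans (by linarith)
    show ‖(Pe x / √x - TK K x) ^ 2‖ ≤ _
    rw [Real.norm_eq_abs, abs_pow]
    exact pow_le_pow_left₀ (abs_nonneg _) h2 2

/-- UB with the statements of ME as hypotheses. -/
theorem err_int_of (hPm : Measurable Pe) (hTK : ∀ K, Continuous (TK K))
    (hPe : ∀ {R : ℝ}, 1 ≤ R → |Pe R| ≤ 20 * R ^ 2) :
    ∃ (C : ℝ) (M₀ : ℕ), 0 < C ∧ ∀ (M K : ℕ), M₀ ≤ M → 1 ≤ K → K ≤ M →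
    ∫ x in ((M : ℝ) + 1)..(2 * M + 1), (Pe x / √x - TK K x) ^ 2
      ≤ C * M * ((K : ℝ) ^ (-(1 / 5) : ℝ) + (M : ℝ) ^ (-(1 / 4) : ℝ)) := by
  obtain ⟨C1, M₀, hC1, hU⟩ := approx_unif (ε := 1 / 80) (by norm_num) (by norm_num)
  refine ⟨2 * C1 ^ 2, M₀ + 1, by positivity, ?_⟩
  intro M K hM hK hKM
  have hM1 : 1 ≤ M := by omega
  have hMr : (1 : ℝ) ≤ M := by exact_mod_cast hM1
  have hM0 : (0 : ℝ) < M := by linarith
  have hKr : (1 : ℝ) ≤ K := by exact_mod_cast hK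
  have hKMr : (K : ℝ) ≤ M := by exact_mod_cast hKM
  have hKM23 : (K : ℝ) ≤ ((M : ℝ) * M) ^ (2 / 3 : ℝ) := by
    refine hKMr.trans ?_
    have h1 : (M : ℝ) * M = (M : ℝ) ^ (2 : ℝ) := by
      rw [Real.rpow_two]; ring
    rw [h1, ← Real.rpow_mul hM0.le]
    calc (M : ℝ) = (M : ℝ) ^ (1 : ℝ) := (Real.rpow_one _).symm
      _ ≤ (M : ℝ) ^ (2 * (2 / 3) : ℝ) :=
        Real.rpow_le_rpow_of_exponent_le hMr (by norm_num)
  obtain ⟨f, hf⟩ : ∃ f : ℝ → ℝ, f = fun x => (Pe x / √x - TK K x) := ⟨_, rfl⟩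
  have hint : ∀ {c d : ℝ}, 1 ≤ c → c ≤ d → IntervalIntegrable (fun x => f x ^ 2) volume c d := by
    intro c d hc hcd
    rw [hf]
    exact UB_intervalIntegrable hPm hTK hPe K hc hcd
  -- split the interval
  have hsplit : ∫ x in ((M : ℝ) + 1)..(2 * M + 1), f x ^ 2
      = ∑ n ∈ Finset.range M, ∫ x in ((M : ℝ) + 1 + (n : ℕ))..((M : ℝ) + 1 + ((n + 1 : ℕ) : ℝ)),
          f x ^ 2 := by
    have h := intervalIntegral.sum_integral_adjacent_intervals (μ := volume)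
      (f := fun x => f x ^ 2) (a := fun n : ℕ => (M : ℝ) + 1 + n) (n := M) (fun k _ => by
        refine hint ?_ ?_
        · have : (0 : ℝ) ≤ k := Nat.cast_nonneg k
          linarith
        · push_cast
          linarith)
    rw [h]
    congr 1
    · push_cast; ring
    · ring
  have hshift : ∀ n : ℕ, ∫ x in ((M : ℝ) + 1 + (n : ℕ))..((M : ℝ) + 1 + ((n + 1 : ℕ) : ℝ)), f x ^ 2
      = ∫ β in (0 : ℝ)..1, f ((M : ℝ) + 1 + β + n) ^ 2 := by
    intro n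
    have h := intervalIntegral.integral_comp_add_left (a := (0 : ℝ)) (b := 1)
      (fun x => f x ^ 2) ((M : ℝ) + 1 + n)
    have e1 : (M : ℝ) + 1 + n + 0 = (M : ℝ) + 1 + n := by ring
    have e2 : (M : ℝ) + 1 + n + 1 = (M : ℝ) + 1 + ((n + 1 : ℕ) : ℝ) := by push_cast; ring
    rw [e1, e2] at h
    rw [← h]
    refine intervalIntegral.integral_congr fun β _ => ?_
    show f ((M : ℝ) + 1 + n + β) ^ 2 = f ((M : ℝ) + 1 + β + n) ^ 2
    congr 2
    ring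
  have hint' : ∀ n : ℕ, IntervalIntegrable (fun β => f ((M : ℝ) + 1 + β + n) ^ 2) volume 0 1 := by
    intro n
    have h0 : (0 : ℝ) ≤ n := Nat.cast_nonneg n
    have h := (hint (c := 0 + ((M : ℝ) + 1 + n)) (d := 1 + ((M : ℝ) + 1 + n)) (by linarith)
      (by linarith)).comp_add_right ((M : ℝ) + 1 + n)
    have e : (fun β => f ((M : ℝ) + 1 + β + n) ^ 2)
        = fun x => (fun x => f x ^ 2) (x + ((M : ℝ) + 1 + n)) := by
      funext β
      simp only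
      congr 2
      ring
    rw [e]
    simpa using h
  have hkey : ∫ x in ((M : ℝ) + 1)..(2 * M + 1), f x ^ 2
      = ∫ β in (0 : ℝ)..1, ∑ n ∈ Finset.range M, f ((M : ℝ) + 1 + β + n) ^ 2 := by
    rw [hsplit, intervalIntegral.integral_finsetSum (fun n _ => hint' n)]
    exact Finset.sum_congr rfl fun n _ => hshift n
  -- the pointwise bound
  obtain ⟨B, hB⟩ : ∃ B : ℝ, B = C1 * (√M * (K : ℝ) ^ (-(1 / 8) + 1 / 80 : ℝ)
      + ((M : ℝ) * M) ^ (1 / 6 + 1 / 80 : ℝ)) := ⟨_, rfl⟩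
  have hpt : ∀ β ∈ Icc (0 : ℝ) 1, ∑ n ∈ Finset.range M, f ((M : ℝ) + 1 + β + n) ^ 2 ≤ B ^ 2 := by
    intro β hβ
    have h := (hU β (by rw [abs_of_nonneg hβ.1]; exact hβ.2) M M K (by omega) hM1 le_rfl hK hKM23).2
    rw [← hB] at h
    have h2 : N2 M (fun n => ((Pe ((M : ℝ) + 1 + β + n) / √((M : ℝ) + 1 + β + n)
        - TK K ((M : ℝ) + 1 + β + n) : ℝ) : ℂ)) ^ 2 ≤ B ^ 2 :=
      pow_le_pow_left₀ (N2_nonneg _ _) h 2
    rw [N2_sq] at h2
    refine le_trans (le_of_eq ?_) h2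
    refine Finset.sum_congr rfl fun n _ => ?_
    rw [Complex.norm_real, Real.norm_eq_abs, sq_abs, hf]
  have hI : ∫ β in (0 : ℝ)..1, ∑ n ∈ Finset.range M, f ((M : ℝ) + 1 + β + n) ^ 2 ≤ B ^ 2 := by
    have h := intervalIntegral.integral_mono_on (a := (0 : ℝ)) (b := 1) (μ := volume)
      (f := fun β => ∑ n ∈ Finset.range M, f ((M : ℝ) + 1 + β + n) ^ 2) (g := fun _ => B ^ 2)
      (by norm_num) (by
        have := IntervalIntegrable.sum (μ := volume) (a := (0 : ℝ)) (b := 1) (Finset.range M)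
          (f := fun n β => f ((M : ℝ) + 1 + β + n) ^ 2) (fun n _ => hint' n)
        refine this.congr ?_
        intro β _
        simp) (by simp) hpt
    simpa using h
  have hBsq : B ^ 2 ≤ 2 * C1 ^ 2 * M * ((K : ℝ) ^ (-(1 / 5) : ℝ) + (M : ℝ) ^ (-(1 / 4) : ℝ)) := by
    have hx : (√M * (K : ℝ) ^ (-(1 / 8) + 1 / 80 : ℝ)) ^ 2 ≤ M * (K : ℝ) ^ (-(1 / 5) : ℝ) := by
      rw [mul_pow, Real.sq_sqrt hM0.le]
      refine mul_le_mul_of_nonneg_left ?_ hM0.le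
      rw [← Real.rpow_natCast, ← Real.rpow_mul (by linarith)]
      exact Real.rpow_le_rpow_of_exponent_le hKr (by norm_num)
    have hy : (((M : ℝ) * M) ^ (1 / 6 + 1 / 80 : ℝ)) ^ 2 ≤ M * (M : ℝ) ^ (-(1 / 4) : ℝ) := by
      have h1 : (M : ℝ) * M = (M : ℝ) ^ (2 : ℝ) := by
        rw [Real.rpow_two]; ring
      have h2 : (M : ℝ) * (M : ℝ) ^ (-(1 / 4) : ℝ) = (M : ℝ) ^ (3 / 4 : ℝ) := by
        nth_rewrite 1 [← Real.rpow_one (M : ℝ)]
        rw [← Real.rpow_add hM0]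
        norm_num
      rw [h2, h1, ← Real.rpow_natCast, ← Real.rpow_mul hM0.le, ← Real.rpow_mul hM0.le]
      exact Real.rpow_le_rpow_of_exponent_le hMr (by norm_num)
    have hs := sq_nonneg (√M * (K : ℝ) ^ (-(1 / 8) + 1 / 80 : ℝ)
      - ((M : ℝ) * M) ^ (1 / 6 + 1 / 80 : ℝ))
    obtain ⟨u, hu⟩ : ∃ u : ℝ, u = √M * (K : ℝ) ^ (-(1 / 8) + 1 / 80 : ℝ) := ⟨_, rfl⟩
    obtain ⟨v, hv⟩ : ∃ v : ℝ, v = ((M : ℝ) * M) ^ (1 / 6 + 1 / 80 : ℝ) := ⟨_, rfl⟩
    rw [← hu, ← hv] at hs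
    rw [← hu] at hx
    rw [← hv] at hy
    rw [hB, ← hu, ← hv]
    have h3 : (C1 * (u + v)) ^ 2 ≤ 2 * C1 ^ 2 * (u ^ 2 + v ^ 2) := by nlinarith [sq_nonneg C1]
    refine h3.trans ?_
    have h4 : 2 * C1 ^ 2 * (u ^ 2 + v ^ 2) ≤ 2 * C1 ^ 2 * (M * (K : ℝ) ^ (-(1 / 5) : ℝ)
        + M * (M : ℝ) ^ (-(1 / 4) : ℝ)) :=
      mul_le_mul_of_nonneg_left (add_le_add hx hy) (by positivity)
    refine h4.trans (le_of_eq (by ring))
  have hfin := hkey.trans_le (hI.trans hBsq)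
  rw [hf] at hfin
  exact hfin

end

end Pool.Agent.Helper22.LIL
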