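import Pool.Agent.Helper12.LIL.UBof

/-! Block LIL-UC (helper12): the scaled form of the mean square estimate. -/

open MeasureTheory Filter Set
open scoped Real Topology

namespace Pool.Agent.Helper22.LIL

open Pool.Agent.Helper22.GC Pool.Agent.Helper53.OM

noncomputable section

/-- UC with the statements of ME as hypotheses. -/
theorem err_scaled_of (hPm : Measurable Pe) (hTK : ∀ K, Continuous (TK K))
    (hPe : ∀ {R : ℝ}, 1 ≤ R → |Pe R| ≤ 20 * R ^ 2)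
    {a b : ℝ} (ha : 0 < a) (hab : a < b) (hb : b ≤ 3 / 2 * a) :
    ∃ C L₀ : ℝ, 0 < C ∧ ∀ (lam : ℝ) (K : ℕ), L₀ ≤ lam → 1 ≤ K → (K : ℝ) ≤ a / 2 * lam →
    ∫ α in a..b, (Pe (α * lam) / √(α * lam) - TK K (α * lam)) ^ 2
      ≤ C * ((K : ℝ) ^ (-(1 / 5) : ℝ) + lam ^ (-(1 / 4) : ℝ)) := by
  obtain ⟨C1, M₀, hC1, hI⟩ := err_int_of hPm hTK hPe
  refine ⟨C1 * a * (1 + (a / 2) ^ (-(1 / 4) : ℝ)), ((M₀ : ℝ) + 6) / a, by positivity, ?_⟩
  intro lam K hlam hK hKl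
  have hM0 : (0 : ℝ) ≤ M₀ := Nat.cast_nonneg M₀
  have hal : (M₀ : ℝ) + 6 ≤ a * lam := by
    rw [div_le_iff₀ ha] at hlam
    linarith
  have hlam0 : 0 < lam := by
    by_contra hcon
    push Not at hcon
    have : a * lam ≤ 0 := mul_nonpos_of_nonneg_of_nonpos ha.le hcon
    linarith
  obtain ⟨M, hM⟩ : ∃ M : ℕ, M + 1 = ⌊a * lam⌋₊ := by
    have h1 : 1 ≤ ⌊a * lam⌋₊ := Nat.le_floor (by push_cast; linarith)
    exact ⟨⌊a * lam⌋₊ - 1, by omega⟩
  have hMle : (M : ℝ) + 1 ≤ a * lam := by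
    have h := Nat.floor_le (show 0 ≤ a * lam by linarith)
    rw [← hM] at h
    push_cast at h
    exact h
  have hMge : a * lam - 2 < (M : ℝ) := by
    have h := Nat.lt_floor_add_one (a * lam)
    rw [← hM] at h
    push_cast at h
    linarith
  have hMM0 : M₀ ≤ M := by
    have h : (M₀ : ℝ) ≤ M := by linarith
    exact_mod_cast h
  have hKM : K ≤ M := by
    have h : (K : ℝ) ≤ M := by
      have : a / 2 * lam = a * lam / 2 := by ring
      linarith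
    exact_mod_cast h
  have hmain := hI M K hMM0 hK hKM
  have hMpos : (0 : ℝ) < M := by linarith
  -- change of variables
  have hcv := intervalIntegral.integral_comp_mul_right (a := a) (b := b)
    (fun x => (Pe x / √x - TK K x) ^ 2) hlam0.ne'
  have hmono : ∫ x in (a * lam)..(b * lam), (Pe x / √x - TK K x) ^ 2
      ≤ ∫ x in ((M : ℝ) + 1)..(2 * M + 1), (Pe x / √x - TK K x) ^ 2 := by
    refine intervalIntegral.integral_mono_interval hMle
      (mul_le_mul_of_nonneg_right hab.le hlam0.le) ?_ ?_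
      (UB_intervalIntegrable hPm hTK hPe K (by linarith) (by linarith))
    · have h1 : b * lam ≤ 3 / 2 * a * lam := mul_le_mul_of_nonneg_right hb hlam0.le
      have h2 : 3 / 2 * a * lam = 3 / 2 * (a * lam) := by ring
      linarith
    · exact Filter.Eventually.of_forall fun x => sq_nonneg _
  have hbound : ∫ α in a..b, (Pe (α * lam) / √(α * lam) - TK K (α * lam)) ^ 2
      ≤ lam⁻¹ * (C1 * M * ((K : ℝ) ^ (-(1 / 5) : ℝ) + (M : ℝ) ^ (-(1 / 4) : ℝ))) := by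
    refine hcv.trans_le ?_
    rw [smul_eq_mul]
    exact mul_le_mul_of_nonneg_left (hmono.trans hmain) (by positivity)
  refine hbound.trans ?_
  have hMpow : (M : ℝ) ^ (-(1 / 4) : ℝ) ≤ (a / 2) ^ (-(1 / 4) : ℝ) * lam ^ (-(1 / 4) : ℝ) := by
    rw [← Real.mul_rpow (by positivity) hlam0.le]
    refine Real.rpow_le_rpow_of_nonpos (by positivity) ?_ (by norm_num)
    have : a / 2 * lam = a * lam / 2 := by ring
    linarith
  have hMl : lam⁻¹ * (M : ℝ) ≤ a := by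
    rw [inv_mul_le_iff₀ hlam0]
    linarith
  obtain ⟨u, hu⟩ : ∃ u : ℝ, u = (K : ℝ) ^ (-(1 / 5) : ℝ) := ⟨_, rfl⟩
  obtain ⟨v, hv⟩ : ∃ v : ℝ, v = lam ^ (-(1 / 4) : ℝ) := ⟨_, rfl⟩
  obtain ⟨w, hw⟩ : ∃ w : ℝ, w = (a / 2) ^ (-(1 / 4) : ℝ) := ⟨_, rfl⟩
  have hu0 : 0 ≤ u := by rw [hu]; positivity
  have hv0 : 0 ≤ v := by rw [hv]; positivity
  have hw0 : 0 ≤ w := by rw [hw]; positivity
  rw [← hu, ← hv, ← hw]
  rw [← hv, ← hw] at hMpow
  have h1 : lam⁻¹ * (C1 * M * (u + (M : ℝ) ^ (-(1 / 4) : ℝ)))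
      = C1 * (lam⁻¹ * M) * (u + (M : ℝ) ^ (-(1 / 4) : ℝ)) := by ring
  rw [h1]
  have h2 : C1 * (lam⁻¹ * M) * (u + (M : ℝ) ^ (-(1 / 4) : ℝ)) ≤ C1 * a * (u + w * v) := by
    refine mul_le_mul (mul_le_mul_of_nonneg_left hMl hC1.le) (by linarith) ?_ (by positivity)
    have : 0 ≤ (M : ℝ) ^ (-(1 / 4) : ℝ) := by positivity
    linarith
  refine h2.trans ?_
  have h3 : C1 * a * (1 + w) * (u + v) = C1 * a * (u + w * v) + C1 * a * (v + w * u) := by ring
  rw [h3]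
  have : 0 ≤ C1 * a * (v + w * u) := by positivity
  linarith

end

end Pool.Agent.Helper22.LIL
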